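import Pool.Agent.Helper20.IIC.Stmts

/-! # Module WD: abstract construction of the weights (MP_084621_pr) -/

namespace IIC

open Filter Topology Set
open scoped BigOperators

/-- The weights built from finitely many finite sets. -/
noncomputable def wd_w {X : Type} [DecidableEq X] (S : X → ℝ) (H : ℕ → Finset X) (K : ℕ) (v : X) :
    ℝ :=
  (1 / (K : ℝ)) * ∑ k ∈ Finset.range K, if v ∈ H k then S v / ∑ x ∈ H k, S x else 0

theorem wd_sum {X : Type} [DecidableEq X] (S : X → ℝ) (H : ℕ → Finset X) (K : ℕ) (f : X → ℝ) :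
    ∑ v ∈ (Finset.range K).biUnion H, wd_w S H K v * f v =
      (1 / (K : ℝ)) * ∑ k ∈ Finset.range K, (∑ v ∈ H k, S v * f v) / ∑ x ∈ H k, S x := by
  unfold wd_w
  simp_rw [mul_assoc, Finset.sum_mul]
  rw [← Finset.mul_sum, Finset.sum_comm]
  congr 1
  apply Finset.sum_congr rfl
  intro k hk
  have hsub : H k ⊆ (Finset.range K).biUnion H := Finset.subset_biUnion_of_mem H hk
  rw [Finset.sum_div, ← Finset.sum_subset hsub]
  · apply Finset.sum_congr rfl
    intro v hv
    rw [if_pos hv]
    ring
  · intro v _ hv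
    rw [if_neg hv, zero_mul]

/-- The double sums. -/
noncomputable def wd_T {X : Type} [AddGroup X] (S : X → ℝ) (A B : Finset X) : ℝ :=
  ∑ u ∈ A, ∑ v ∈ B, S u * S (u - v)

theorem wd_pair {X : Type} [AddGroup X] [DecidableEq X] (S : X → ℝ) (hpos : ∀ x, 0 < S x)
    (hneg : ∀ x, S (-x) = S x) (H : ℕ → Finset X) (K : ℕ) :
    ∑ u ∈ (Finset.range K).biUnion H, ∑ v ∈ (Finset.range K).biUnion H,
      wd_w S H K u * wd_w S H K v * (S (u - v) * (1 / S u + 1 / S v)) =
    (1 / (K : ℝ)) * ((1 / (K : ℝ)) * ∑ j ∈ Finset.range K, ∑ k ∈ Finset.range K,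
      (wd_T S (H j) (H k) + wd_T S (H k) (H j)) / ((∑ x ∈ H j, S x) * ∑ x ∈ H k, S x)) := by
  have h1 : ∀ u, ∑ v ∈ (Finset.range K).biUnion H,
      wd_w S H K u * wd_w S H K v * (S (u - v) * (1 / S u + 1 / S v)) =
      wd_w S H K u * ((1 / (K : ℝ)) * ∑ k ∈ Finset.range K,
        (∑ v ∈ H k, S v * (S (u - v) * (1 / S u + 1 / S v))) / ∑ x ∈ H k, S x) := by
    intro u
    rw [← wd_sum, Finset.mul_sum]
    apply Finset.sum_congr rfl
    intro v _
    ring
  rw [Finset.sum_congr rfl (fun u _ => h1 u), wd_sum]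
  congr 1
  rw [Finset.mul_sum]
  apply Finset.sum_congr rfl
  intro j _
  have h2 : ∑ u ∈ H j, S u * ((1 / (K : ℝ)) * ∑ k ∈ Finset.range K,
        (∑ v ∈ H k, S v * (S (u - v) * (1 / S u + 1 / S v))) / ∑ x ∈ H k, S x) =
      (1 / (K : ℝ)) * ∑ k ∈ Finset.range K,
        (wd_T S (H j) (H k) + wd_T S (H k) (H j)) / ∑ x ∈ H k, S x := by
    have h3 : ∀ u ∈ H j, S u * ((1 / (K : ℝ)) * ∑ k ∈ Finset.range K,
        (∑ v ∈ H k, S v * (S (u - v) * (1 / S u + 1 / S v))) / ∑ x ∈ H k, S x) =
        (1 / (K : ℝ)) * ∑ k ∈ Finset.range K,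
          (∑ v ∈ H k, (S u * S (u - v) + S v * S (v - u))) / ∑ x ∈ H k, S x := by
      intro u _
      rw [← mul_assoc, mul_comm (S u), mul_assoc, Finset.mul_sum]
      congr 1
      apply Finset.sum_congr rfl
      intro k _
      rw [← mul_div_assoc, Finset.mul_sum]
      congr 1
      apply Finset.sum_congr rfl
      intro v _
      have hs : S (v - u) = S (u - v) := by rw [← hneg, neg_sub]
      have hu := (hpos u).ne'
      have hv := (hpos v).ne'
      rw [hs]
      field_simp
      ring
    rw [Finset.sum_congr rfl h3, ← Finset.mul_sum, Finset.sum_comm]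
    congr 1
    apply Finset.sum_congr rfl
    intro k _
    rw [← Finset.sum_div]
    congr 1
    simp_rw [Finset.sum_add_distrib]
    unfold wd_T
    congr 1
    rw [Finset.sum_comm]
  rw [h2, mul_div_assoc, Finset.sum_div]
  congr 1
  apply Finset.sum_congr rfl
  intro k _
  rw [div_div, mul_comm (∑ x ∈ H k, S x)]

theorem st_WD : ST_WD := by
  classical
  intro d S G C hpos hneg hS hW hC hlim ε hε
  set Wt : ℕ → ℝ := fun n => ∑ v ∈ G n, S v with hWt
  set δ : ℝ := ε / 4 with hδ
  have hδ0 : 0 < δ := by positivity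
  -- eventual properties
  have hP : ∀ᶠ n in atTop, 0 < Wt n ∧ ∀ u ∈ G n, ∑ v ∈ G n, S (v - u) ≤ C * Wt n :=
    (hW.eventually_gt_atTop 0).and hC
  have hr : ∀ j, 0 < Wt j → ∀ᶠ k in atTop, wd_T S (G j) (G k) ≤ (1 + δ) * (Wt j * Wt k) ∧
      wd_T S (G k) (G j) ≤ δ * (Wt j * Wt k) := by
    intro j hj
    have e1 : ∀ᶠ k in atTop, wd_T S (G j) (G k) ≤ (1 + δ) * (Wt j * Wt k) := by
      have e0 : ∀ᶠ k in atTop, ∀ u ∈ G j, ∑ v ∈ G k, S (v - u) ≤ (1 + δ) * Wt k :=
        (Filter.eventually_all_finset (G j)).2 fun u hu => hlim j u hu δ hδ0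
      filter_upwards [e0] with k hk
      unfold wd_T
      calc ∑ u ∈ G j, ∑ v ∈ G k, S u * S (u - v) = ∑ u ∈ G j, S u * ∑ v ∈ G k, S (v - u) := by
            apply Finset.sum_congr rfl
            intro u _
            rw [Finset.mul_sum]
            apply Finset.sum_congr rfl
            intro v _
            rw [← hneg (v - u), neg_sub]
        _ ≤ ∑ u ∈ G j, S u * ((1 + δ) * Wt k) :=
            Finset.sum_le_sum fun u hu => mul_le_mul_of_nonneg_left (hk u hu) (hpos u).le
        _ = (1 + δ) * (Wt j * Wt k) := by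
            rw [← Finset.sum_mul]
            ring
    have e2 : ∀ᶠ k in atTop, wd_T S (G k) (G j) ≤ δ * (Wt j * Wt k) := by
      -- outside a finite set the inner sum is small
      have f1 : Tendsto (fun u => ∑ v ∈ G j, S (u - v)) cofinite (𝓝 (∑ _v ∈ G j, (0 : ℝ))) := by
        apply tendsto_finsetSum
        intro v _
        exact hS.comp (Function.Injective.tendsto_cofinite (sub_left_injective))
      rw [Finset.sum_const_zero] at f1
      have f2 : ∀ᶠ u in cofinite, ∑ v ∈ G j, S (u - v) < δ / 2 * Wt j :=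
        f1.eventually_lt_const (by positivity)
      rw [Filter.eventually_cofinite] at f2
      set B : Finset (Fin d → ℤ) := f2.toFinset with hB
      set M : ℝ := ∑ u ∈ B, S u * ∑ v ∈ G j, S (u - v) with hM
      have f3 : ∀ᶠ k in atTop, M / (δ / 2 * Wt j) < Wt k := hW.eventually_gt_atTop _
      filter_upwards [f3, hW.eventually_gt_atTop 0] with k hk hk0
      have hk' : M < δ / 2 * Wt j * Wt k := by
        rw [div_lt_iff₀ (by positivity)] at hk
        linarith
      unfold wd_T
      have g1 : ∀ u ∈ G k, ∑ v ∈ G j, S u * S (u - v) ≤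
          S u * (δ / 2 * Wt j) + if u ∈ B then S u * ∑ v ∈ G j, S (u - v) else 0 := by
        intro u _
        rw [← Finset.mul_sum]
        by_cases hu : u ∈ B
        · rw [if_pos hu]
          have : 0 ≤ S u * (δ / 2 * Wt j) := by
            have := (hpos u).le
            positivity
          linarith
        · rw [if_neg hu, add_zero]
          have hu' : ∑ v ∈ G j, S (u - v) < δ / 2 * Wt j := by
            by_contra hcon
            exact hu (f2.mem_toFinset.2 hcon)
          exact mul_le_mul_of_nonneg_left hu'.le (hpos u).le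
      have g2 : ∑ u ∈ G k, (if u ∈ B then S u * ∑ v ∈ G j, S (u - v) else 0) ≤ M := by
        rw [← Finset.sum_filter]
        apply Finset.sum_le_sum_of_subset_of_nonneg
        · intro u hu
          exact (Finset.mem_filter.1 hu).2
        · intro u _ _
          have h0 : 0 ≤ ∑ v ∈ G j, S (u - v) := Finset.sum_nonneg fun v _ => (hpos _).le
          exact mul_nonneg (hpos u).le h0
      calc ∑ u ∈ G k, ∑ v ∈ G j, S u * S (u - v)
          ≤ ∑ u ∈ G k, (S u * (δ / 2 * Wt j) +
              if u ∈ B then S u * ∑ v ∈ G j, S (u - v) else 0) := Finset.sum_le_sum g1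
        _ = Wt k * (δ / 2 * Wt j) + ∑ u ∈ G k, (if u ∈ B then S u * ∑ v ∈ G j, S (u - v) else 0) := by
            rw [Finset.sum_add_distrib, ← Finset.sum_mul]
        _ ≤ Wt k * (δ / 2 * Wt j) + δ / 2 * Wt j * Wt k := by linarith
        _ = δ * (Wt j * Wt k) := by ring
    exact e1.and e2
  obtain ⟨n, hn1, hn2⟩ := exists_seq_of_forall_finset_exists
    (fun n => 0 < Wt n ∧ ∀ u ∈ G n, ∑ v ∈ G n, S (v - u) ≤ C * Wt n)
    (fun j k => wd_T S (G j) (G k) ≤ (1 + δ) * (Wt j * Wt k) ∧
      wd_T S (G k) (G j) ≤ δ * (Wt j * Wt k))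
    (by
      intro s hs
      exact (hP.and ((Filter.eventually_all_finset s).2 fun x hx => hr x (hs x hx).1)).exists)
  -- the number of sets
  obtain ⟨K, hK⟩ := exists_nat_gt (4 * |C| / ε)
  have hK0 : (0 : ℝ) < K := lt_of_le_of_lt (by positivity) hK
  have hK0' : 0 < K := by exact_mod_cast hK0
  set H : ℕ → Finset (Fin d → ℤ) := fun k => G (n k) with hH
  refine ⟨(Finset.range K).biUnion H, wd_w S H K, ?_, ?_, ?_, ?_⟩
  · intro u _
    unfold wd_w
    apply mul_nonneg (by positivity)
    apply Finset.sum_nonneg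
    intro k _
    split_ifs
    · exact div_nonneg (hpos u).le (Finset.sum_nonneg fun x _ => (hpos x).le)
    · exact le_rfl
  · have := wd_sum S H K (fun _ => 1)
    simp only [mul_one] at this
    rw [this]
    have h1 : ∀ k ∈ Finset.range K, (∑ v ∈ H k, S v) / ∑ x ∈ H k, S x = 1 := by
      intro k _
      exact div_self (hn1 k).1.ne'
    rw [Finset.sum_congr rfl h1, Finset.sum_const, Finset.card_range, nsmul_eq_mul, mul_one]
    field_simp
  · intro u hu
    obtain ⟨k, _, hk⟩ := Finset.mem_biUnion.1 hu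
    exact ⟨n k, hk⟩
  · rw [wd_pair S hpos hneg]
    have hterm : ∀ j ∈ Finset.range K, ∀ k ∈ Finset.range K,
        (wd_T S (H j) (H k) + wd_T S (H k) (H j)) / ((∑ x ∈ H j, S x) * ∑ x ∈ H k, S x) ≤
          (1 + 2 * δ) + if j = k then 2 * |C| else 0 := by
      intro j _ k _
      have hj := (hn1 j).1
      have hk := (hn1 k).1
      have hjk : 0 < Wt (n j) * Wt (n k) := mul_pos hj hk
      have key : ∀ a b, a < b → wd_T S (H a) (H b) + wd_T S (H b) (H a) ≤
          (1 + 2 * δ) * (Wt (n a) * Wt (n b)) := by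
        intro a b hab
        have := hn2 a b hab
        simp only [hH]
        linarith [this.1, this.2]
      rw [div_le_iff₀ hjk]
      rcases lt_trichotomy j k with h | h | h
      · rw [if_neg h.ne, add_zero]
        exact key j k h
      · subst h
        rw [if_pos rfl]
        have h1 : wd_T S (H j) (H j) ≤ |C| * (Wt (n j) * Wt (n j)) := by
          unfold wd_T
          calc ∑ u ∈ H j, ∑ v ∈ H j, S u * S (u - v)
              = ∑ u ∈ H j, S u * ∑ v ∈ H j, S (v - u) := by
                apply Finset.sum_congr rfl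
                intro u _
                rw [Finset.mul_sum]
                apply Finset.sum_congr rfl
                intro v _
                rw [← hneg (v - u), neg_sub]
            _ ≤ ∑ u ∈ H j, S u * (|C| * Wt (n j)) := by
                apply Finset.sum_le_sum
                intro u hu
                apply mul_le_mul_of_nonneg_left _ (hpos u).le
                exact ((hn1 j).2 u hu).trans (mul_le_mul_of_nonneg_right (le_abs_self C) hj.le)
            _ = |C| * (Wt (n j) * Wt (n j)) := by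
                rw [← Finset.sum_mul]
                ring
        have h2 : 0 ≤ (1 + 2 * δ) * (Wt (n j) * Wt (n j)) := by positivity
        calc wd_T S (H j) (H j) + wd_T S (H j) (H j) ≤ 2 * |C| * (Wt (n j) * Wt (n j)) := by
              linarith
          _ ≤ (1 + 2 * δ + 2 * |C|) * (Wt (n j) * Wt (n j)) := by linarith
      · rw [if_neg h.ne', add_zero, add_comm, mul_comm (Wt (n j))]
        exact key k j h
    have hsum : ∑ j ∈ Finset.range K, ∑ k ∈ Finset.range K,
        (wd_T S (H j) (H k) + wd_T S (H k) (H j)) / ((∑ x ∈ H j, S x) * ∑ x ∈ H k, S x) ≤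
        (K : ℝ) * K * (1 + 2 * δ) + K * (2 * |C|) := by
      calc _ ≤ ∑ j ∈ Finset.range K, ∑ k ∈ Finset.range K,
            ((1 + 2 * δ) + if j = k then 2 * |C| else 0) :=
            Finset.sum_le_sum fun j hj => Finset.sum_le_sum fun k hk => hterm j hj k hk
        _ = ∑ j ∈ Finset.range K, ((K : ℝ) * (1 + 2 * δ) + 2 * |C|) := by
            apply Finset.sum_congr rfl
            intro j hj
            rw [Finset.sum_add_distrib, Finset.sum_const, Finset.card_range, nsmul_eq_mul,
              Finset.sum_ite_eq, if_pos hj]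
        _ = (K : ℝ) * K * (1 + 2 * δ) + K * (2 * |C|) := by
            rw [Finset.sum_const, Finset.card_range, nsmul_eq_mul]
            ring
    have hfin : (1 / (K : ℝ)) * ((1 / (K : ℝ)) * ((K : ℝ) * K * (1 + 2 * δ) + K * (2 * |C|))) =
        (1 + 2 * δ) + 2 * |C| / K := by
      field_simp
    have hle : 2 * |C| / K ≤ ε / 2 := by
      rw [div_le_iff₀ hK0]
      rw [div_lt_iff₀ hε] at hK
      linarith
    calc _ ≤ (1 / (K : ℝ)) * ((1 / (K : ℝ)) * ((K : ℝ) * K * (1 + 2 * δ) + K * (2 * |C|))) := by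
          apply mul_le_mul_of_nonneg_left _ (by positivity)
          exact mul_le_mul_of_nonneg_left hsum (by positivity)
      _ = (1 + 2 * δ) + 2 * |C| / K := hfin
      _ ≤ 1 + ε := by
          rw [hδ]
          linarith

end IIC
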